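import Mathlib

set_option autoImplicit false

namespace Pool.Agent.Results.MP_54f706_an.Infinite

open Set Filter Topology

lemma third {x : ℝ} (hx : x ∈ cantorSet) : x / 3 ∈ cantorSet := by
  rw [cantorSet_eq_union_halves]; exact Or.inl ⟨x, hx, rfl⟩

lemma third' {x : ℝ} (hx : x ∈ cantorSet) : (2 + x) / 3 ∈ cantorSet := by
  rw [cantorSet_eq_union_halves]; exact Or.inr ⟨x, hx, rfl⟩

lemma symm_pre (n : ℕ) : ∀ x ∈ preCantorSet n, 1 - x ∈ preCantorSet n := by
  induction n with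
  | zero => intro x hx; exact ⟨by linarith [hx.2], by linarith [hx.1]⟩
  | succ n ih =>
    rintro _ (⟨y, hy, rfl⟩ | ⟨y, hy, rfl⟩)
    · exact Or.inr ⟨1 - y, ih y hy, by ring⟩
    · exact Or.inl ⟨1 - y, ih y hy, by ring⟩

lemma symm_mem {x : ℝ} (hx : x ∈ cantorSet) : 1 - x ∈ cantorSet :=
  mem_iInter.2 fun n => symm_pre n x (mem_iInter.1 hx n)

lemma scale {x : ℝ} (hx : x ∈ cantorSet) (k : ℕ) : (1 / 3) ^ k * x ∈ cantorSet := by
  induction k with
  | zero => simpa using hx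
  | succ k ih =>
    have := third ih
    convert this using 1
    ring

def Basic (a d : ℝ) : Prop := ∀ x ∈ cantorSet, a + d * x ∈ cantorSet

lemma Basic.left {a d : ℝ} (h : Basic a d) : Basic a (d / 3) := fun x hx => by
  have := h _ (third hx)
  convert this using 1
  ring

lemma Basic.right {a d : ℝ} (h : Basic a d) : Basic (a + 2 * d / 3) (d / 3) := fun x hx => by
  have := h _ (third' hx)
  convert this using 1
  ring

def h (ε w s : ℝ) : ℝ := 2 * w - ε * w ^ 2 - s ^ 2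

def Good (ε d a c : ℝ) : Prop :=
  Basic a d ∧ Basic c d ∧ 2 / 9 ≤ a ∧ a + d ≤ 1 / 3 ∧ 2 / 3 ≤ c ∧ c + d ≤ 7 / 9 ∧
    h ε a (c + d) ≤ 0 ∧ 0 ≤ h ε (a + d) c

lemma step {ε d a c : ℝ} (h0 : 0 ≤ ε) (h1 : ε ≤ 1 / 9) (hd : 0 < d) (G : Good ε d a c) :
    ∃ a' c', Good ε (d / 3) a' c' := by
  obtain ⟨ba, bc, a1, a2, c1, c2, lo, hi⟩ := G
  have ea : ε * a ≤ 1 / 27 := by nlinarith
  have ed : ε * d ≤ 1 / 81 := by nlinarith
  have ea0 : 0 ≤ ε * a := by positivity
  have ed0 : 0 ≤ ε * d := by positivity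
  have p1 : ε * a * d ≤ 1 / 27 * d := mul_le_mul_of_nonneg_right ea hd.le
  have p2 : ε * d * d ≤ 1 / 81 * d := mul_le_mul_of_nonneg_right ed hd.le
  have p3 : (c + d) * d ≤ 7 / 9 * d := mul_le_mul_of_nonneg_right c2 hd.le
  have p4 : 2 / 3 * d ≤ c * d := mul_le_mul_of_nonneg_right c1 hd.le
  have p5 : 0 ≤ d * d := by positivity
  have p6 : 0 ≤ ε * a * d := by positivity
  have p7 : 0 ≤ ε * d * d := by positivity
  unfold h at lo hi
  by_cases k1 : 0 ≤ h ε (a + d / 3) (c + 2 * d / 3)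
  · refine ⟨a, c + 2 * d / 3, ba.left, bc.right, a1, by linarith, by linarith, by linarith, ?_, k1⟩
    unfold h
    convert lo using 2
    ring
  by_cases k2 : 0 ≤ h ε (a + d / 3) c
  · refine ⟨a, c, ba.left, bc.left, a1, by linarith, c1, by linarith, ?_, k2⟩
    unfold h at k1 ⊢
    linarith
  by_cases k3 : 0 ≤ h ε (a + d) (c + 2 * d / 3)
  · refine ⟨a + 2 * d / 3, c + 2 * d / 3, ba.right, bc.right, by linarith, by linarith,
      by linarith, by linarith, ?_, ?_⟩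
    · unfold h at k2 ⊢
      linarith
    · convert k3 using 2
      ring
  · refine ⟨a + 2 * d / 3, c, ba.right, bc.left, by linarith, by linarith, c1, by linarith, ?_, ?_⟩
    · unfold h at k3 ⊢
      linarith
    · unfold h
      convert hi using 2
      ring

lemma good_all {ε : ℝ} (h0 : 0 ≤ ε) (h1 : ε ≤ 1 / 9) (n : ℕ) :
    ∃ a c, Good ε (1 / 9 * (1 / 3) ^ n) a c := by
  induction n with
  | zero =>
    have b0 : Basic 0 1 := fun x hx => by simpa using hx
    refine ⟨2 / 9, 2 / 3, ?_, ?_, le_rfl, by norm_num, le_rfl, by norm_num, ?_, ?_⟩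
    · convert b0.left.right using 1 <;> norm_num
    · convert b0.right.left using 1 <;> norm_num
    · unfold h; nlinarith
    · unfold h; nlinarith
  | succ n ih =>
    obtain ⟨a, c, G⟩ := ih
    obtain ⟨a', c', G'⟩ := step h0 h1 (by positivity) G
    refine ⟨a', c', ?_⟩
    convert G' using 1
    ring

lemma solve {ε : ℝ} (h0 : 0 ≤ ε) (h1 : ε ≤ 1 / 9) :
    ∃ w ∈ cantorSet, ∃ s ∈ cantorSet, 2 / 3 ≤ s ∧ h ε w s = 0 := by
  let K : Set (ℝ × ℝ) := cantorSet ×ˢ (cantorSet ∩ Ici (2 / 3))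
  have hK : IsCompact K := isCompact_cantorSet.prod (isCompact_cantorSet.inter_right isClosed_Ici)
  have hc : Continuous fun p : ℝ × ℝ => h ε p.1 p.2 := by unfold h; fun_prop
  have hcl : IsClosed ((fun p : ℝ × ℝ => h ε p.1 p.2) '' K) := (hK.image hc).isClosed
  have hmem : (0 : ℝ) ∈ (fun p : ℝ × ℝ => h ε p.1 p.2) '' K := by
    rw [← hcl.closure_eq, Metric.mem_closure_iff]
    intro η hη
    obtain ⟨n, hn⟩ := exists_pow_lt_of_lt_one hη (by norm_num : (1 / 3 : ℝ) < 1)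
    obtain ⟨a, c, ba, bc, a1, a2, c1, c2, lo, hi⟩ := good_all h0 h1 n
    have hp : 0 < (1 / 3 : ℝ) ^ n := by positivity
    refine ⟨_, ⟨(a, c), ⟨by simpa using ba 0 zero_mem_cantorSet,
      by simpa using bc 0 zero_mem_cantorSet, c1⟩, rfl⟩, ?_⟩
    set d := 1 / 9 * (1 / 3 : ℝ) ^ n with hd
    have hd0 : 0 < d := by positivity
    have hd1 : 9 * d < η := by linarith
    have e1 : 0 ≤ ε * (2 * a * d + d ^ 2) := by positivity
    rw [Real.dist_eq, abs_lt]
    unfold h at lo hi ⊢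
    simp only
    constructor <;> nlinarith
  obtain ⟨⟨w, s⟩, ⟨hw, hs, hs'⟩, he⟩ := hmem
  exact ⟨w, hw, s, hs, hs', he⟩

/-- The unit circle meets the product of two middle-third Cantor sets in infinitely many points. -/
theorem result :
    {p : ℝ × ℝ | p.1 ^ 2 + p.2 ^ 2 = 1 ∧ p.1 ∈ cantorSet ∧ p.2 ∈ cantorSet}.Infinite := by
  have key : ∀ k : ℕ, ∃ p : ℝ × ℝ, (p.1 ^ 2 + p.2 ^ 2 = 1 ∧ p.1 ∈ cantorSet ∧ p.2 ∈ cantorSet) ∧
      2 * (1 / 3) ^ (k + 2) ≤ p.2 ∧ p.2 ≤ (1 / 3) ^ (k + 1) := by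
    intro k
    have hp : 0 < (1 / 3 : ℝ) ^ k := by positivity
    have hp1 : (1 / 3 : ℝ) ^ k ≤ 1 := pow_le_one₀ (by norm_num) (by norm_num)
    have e : (1 / 3 : ℝ) ^ (2 * (k + 1)) = ((1 / 3) ^ (k + 1)) ^ 2 := by rw [← pow_mul, mul_comm]
    obtain ⟨w, hw, s, hs, hs', he⟩ := solve (ε := (1 / 3) ^ (2 * (k + 1))) (by positivity)
      (by rw [e, pow_succ (1 / 3 : ℝ) k]; nlinarith)
    have hs1 := (cantorSet_subset_unitInterval hs).2
    refine ⟨(1 - (1 / 3) ^ (2 * (k + 1)) * w, (1 / 3) ^ (k + 1) * s),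
      ⟨?_, symm_mem (scale hw _), scale hs _⟩, ?_, ?_⟩
    · unfold h at he
      simp only
      rw [e] at he ⊢
      linear_combination (-((1 / 3 : ℝ) ^ (k + 1)) ^ 2) * he
    · simp only [pow_succ]
      nlinarith
    · simp only [pow_succ]
      nlinarith
  choose p hp hlo hhi using key
  refine Set.infinite_of_injective_forall_mem (f := p) ?_ hp
  have hanti : StrictAnti fun k => (p k).2 := by
    refine strictAnti_nat_of_succ_lt fun k => ?_
    have h1 := hhi (k + 1)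
    have h2 := hlo k
    have hp : 0 < (1 / 3 : ℝ) ^ (k + 2) := by positivity
    linarith
  intro i j hij
  exact hanti.injective (by simp only [hij])

end Pool.Agent.Results.MP_54f706_an.Infinite
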